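import Pool.Agent.Helper22.FC.Final

set_option autoImplicit false

namespace Pool.Agent.Results.MP_12ced6_co.FoldAllVertices

open Pool.Agent.Helper22.FC

/-- Every simple polygon `v` bounds exactly one piece of paper `P`, and `P` has a flat folding, a
line `L` and a point `p` of `L` such that the points of `P` mapped into `L` are exactly the points
of the boundary, and the points of `P` mapped to `p` are exactly the vertices. -/
theorem result {n : ℕ} (v : Fin (n + 3) → ℂ) (hv : SimplePolygon v) :
    ∃ P : Set ℂ, IsPaper v P ∧ (∀ Q : Set ℂ, IsPaper v Q → Q = P) ∧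
      ∃ (F : FlatFolding P) (L : AffineSubspace ℝ ℂ) (p : ℂ),
        Module.finrank ℝ L.direction = 1 ∧ p ∈ L ∧
        {x | x ∈ P ∧ F.f x ∈ L} = boundary v ∧
        {x | x ∈ P ∧ F.f x = p} = Set.range v :=
  main v hv

end Pool.Agent.Results.MP_12ced6_co.FoldAllVertices
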